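import Pool.Agent.Lib.MP_d55432_al.G2.Iface

/-!
# G2, module PTYPE: the values of `P0`
-/

namespace Pool.Agent.Lib.MP_d55432_al.G2.H72

open Matrix LieAlgebra Pool.Agent.Lib.MP_d55432_al.G2

attribute [local instance 100] LieRing.ofAssociativeRing

section ring

variable {A : Type*} [CommRing A]

theorem adM_smul (c : A) (x : V7 A) : adM (c • x) = c • adM x := by
  ext i j
  fin_cases i <;> fin_cases j <;> simp [adM] <;> ring

theorem DD_smul (c d : A) (x y : V7 A) : DD (c • x) (d • y) = (c * d) • DD x y := by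
  rw [DD, adM_smul, adM_smul, br_smul_left, br_smul_right, adM_smul, adM_smul, Matrix.smul_mul,
    Matrix.mul_smul, Matrix.smul_mul, Matrix.mul_smul, smul_smul, smul_smul, smul_smul,
    mul_comm d c, ← smul_sub, ← smul_add]
  rfl

theorem qq_smul (c : A) (x : V7 A) : qq (c • x) = c ^ 2 * qq x := by
  simp [qq]
  ring

theorem bb_smul_smul (c d : A) (x y : V7 A) : bb (c • x) (d • y) = c * d * bb x y := by
  simp [bb]
  ring

theorem P0_smul (l m a b c : A) (e f₁ f₂ : V7 A) :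
    ((2 * l + m) * qq (c • f₂)) • DD (b • f₁) (br (a • e) (b • f₁)) +
      ((l + 2 * m) * qq (b • f₁)) • DD (c • f₂) (br (a • e) (c • f₂)) =
    (a * b ^ 2 * c ^ 2) • (((2 * l + m) * qq f₂) • DD f₁ (br e f₁) +
      ((l + 2 * m) * qq f₁) • DD f₂ (br e f₂)) := by
  rw [br_smul_left, br_smul_left, br_smul_right, br_smul_right, smul_smul, smul_smul,
    DD_smul, DD_smul, qq_smul, qq_smul, smul_add, smul_smul, smul_smul, smul_smul, smul_smul]
  congr 2 <;> ring

theorem bb_cyc (x y z : V7 A) : bb x (br y z) = bb y (br z x) := by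
  simp [bb, br]
  ring

theorem bb_br_self (x y : V7 A) : bb x (br y x) = 0 := by
  simp [bb, br]
  ring

theorem bb_br_left (x y z : V7 A) : bb (br x y) z = -bb y (br x z) := by
  simp [br, bb]
  ring

theorem bb_add_left (x y z : V7 A) : bb (x + y) z = bb x z + bb y z := by
  simp only [bb, Pi.add_apply]
  ring

theorem bb_sub_right (x y z : V7 A) : bb x (y - z) = bb x y - bb x z := by
  simp only [bb, Pi.sub_apply]
  ring

theorem bb_smul_left (c : A) (x y : V7 A) : bb (c • x) y = c * bb x y := by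
  simp only [bb, Pi.smul_apply, smul_eq_mul]
  ring

theorem bb_smul_right (c : A) (x y : V7 A) : bb x (c • y) = c * bb x y := by
  simp only [bb, Pi.smul_apply, smul_eq_mul]
  ring

end ring

section field

variable {K : Type*} [Field K]

theorem DD_mulVec (x y z : V7 K) :
    DD x y *ᵥ z = br x (br y z) - br y (br x z) + br (br x y) z := by
  rw [DD, add_mulVec, sub_mulVec, ← mulVec_mulVec, ← mulVec_mulVec, adM_mulVec, adM_mulVec,
    adM_mulVec, adM_mulVec, adM_mulVec]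

theorem TT_mulVec (l m : K) (z : V7 K) :
    TT l m *ᵥ z = ![0, l * z 1, m * z 2, (-l - m) * z 3, -l * z 4, -m * z 5, (l + m) * z 6] := by
  rw [TT]
  funext i
  rw [mulVec_diagonal]
  fin_cases i <;> simp

theorem P0_std (l m : K) :
    P0 l m (ee 0) (ee 1 + ee 4) (ee 2 + ee 5) = (-24 : K) • TT l m := by
  have h1 : br (ee 0 : V7 K) (ee 1 + ee 4) = ![0, 2, 0, 0, -2, 0, 0] := by
    funext i
    fin_cases i <;> simp [br, ee]
  have h2 : br (ee 0 : V7 K) (ee 2 + ee 5) = ![0, 0, 2, 0, 0, -2, 0] := by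
    funext i
    fin_cases i <;> simp [br, ee]
  have h3 : (ee 1 + ee 4 : V7 K) = ![0, 1, 0, 0, 1, 0, 0] := by
    funext i
    fin_cases i <;> simp [ee]
  have h4 : (ee 2 + ee 5 : V7 K) = ![0, 0, 1, 0, 0, 1, 0] := by
    funext i
    fin_cases i <;> simp [ee]
  rw [P0, h1, h2, h3, h4]
  apply Matrix.mulVec_injective
  funext z
  rw [add_mulVec, smul_mulVec, smul_mulVec, smul_mulVec, DD_mulVec, DD_mulVec, TT_mulVec]
  funext i
  fin_cases i <;> simp [br, qq] <;> ring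

variable [CharZero K]

theorem ptype_one (hF : FRAME_S K) (hD : DER_S K) (l m : K) (e f₁ f₂ : V7 K)
    (h12 : bb f₁ f₂ = 0) (he1 : bb e f₁ = 0) (he2 : bb e f₂ = 0) (he12 : bb e (br f₁ f₂) = 0)
    (qe : qq e = 1) (q1 : qq f₁ = 1) (q2 : qq f₂ = 1) :
    ∃ g h : M7 K, IsG g h ∧ P0 l m e f₁ f₂ = g * ((-24 : K) • TT l m) * h := by
  have hbe : ∀ f : V7 K, bb e f = 0 → br e (br e f) = (4 : K) • f := by
    intro f hf
    rw [br_br, qe, hf]
    simp
  have hu : ∀ f : V7 K, bb e f = 0 →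
      br e ((1 / 2 : K) • (f + (1 / 2 : K) • br e f)) =
        (2 : K) • ((1 / 2 : K) • (f + (1 / 2 : K) • br e f)) := by
    intro f hf
    rw [br_smul_right, br_add_right, br_smul_right, hbe f hf]
    match_scalars <;> norm_num
  have hv : ∀ f : V7 K, bb e f = 0 →
      br e ((1 / 2 : K) • (f - (1 / 2 : K) • br e f)) =
        -((2 : K) • ((1 / 2 : K) • (f - (1 / 2 : K) • br e f))) := by
    intro f hf
    rw [br_smul_right, sub_eq_add_neg, ← neg_smul, br_add_right, br_smul_right, hbe f hf]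
    match_scalars <;> norm_num
  have hb : ∀ f f' : V7 K, bb e f' = 0 → bb f (br e f') = 0 →
      bb ((1 / 2 : K) • (f + (1 / 2 : K) • br e f)) ((1 / 2 : K) • (f' - (1 / 2 : K) • br e f')) =
        bb f f' / 2 := by
    intro f f' hf' hff
    have h1 : bb (br e f) f' = 0 := by rw [bb_br_left, hff, neg_zero]
    have h2 : bb (br e f) (br e f') = -(4 * bb f f') := by
      rw [bb_br_left, hbe f' hf', bb_smul_right]
    rw [bb_smul_left, bb_smul_right, bb_add_left, bb_smul_left, bb_sub_right, bb_sub_right,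
      bb_smul_right, bb_smul_right, hff, h1, h2]
    ring
  have hc : bb f₁ (br e f₂) = 0 := by
    rw [bb_cyc, br_swap, ← neg_one_smul K (br f₁ f₂), bb_smul_right, he12, mul_zero]
  have hc' : bb f₂ (br e f₁) = 0 := by
    rw [bb_cyc, he12]
  obtain ⟨g, h, H, g0, g1, g2', g4, g5⟩ := hF e
    ((1 / 2 : K) • (f₁ + (1 / 2 : K) • br e f₁)) ((1 / 2 : K) • (f₂ + (1 / 2 : K) • br e f₂))
    ((1 / 2 : K) • (f₁ - (1 / 2 : K) • br e f₁)) ((1 / 2 : K) • (f₂ - (1 / 2 : K) • br e f₂))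
    qe (hu f₁ he1) (hu f₂ he2) (hv f₁ he1) (hv f₂ he2)
    (by rw [hb f₁ f₁ he1 (bb_br_self f₁ e), bb_self, q1]; norm_num)
    (by rw [hb f₁ f₂ he2 hc, h12]; norm_num)
    (by rw [hb f₂ f₁ he1 hc', bb_comm, h12]; norm_num)
    (by rw [hb f₂ f₂ he2 (bb_br_self f₂ e), bb_self, q2]; norm_num)
  refine ⟨g, h, H, ?_⟩
  have e1 : f₁ = g *ᵥ (ee 1 + ee 4) := by
    rw [mulVec_add, g1, g4]
    match_scalars <;> norm_num
  have e2 : f₂ = g *ᵥ (ee 2 + ee 5) := by
    rw [mulVec_add, g2', g5]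
    match_scalars <;> norm_num
  rw [← P0_std l m, P0, P0, ← hD.2.2.1 g h H (ee 1 + ee 4), ← hD.2.2.1 g h H (ee 2 + ee 5),
    ← e1, ← e2, Matrix.mul_add, Matrix.add_mul, Matrix.mul_smul, Matrix.mul_smul,
    Matrix.smul_mul, Matrix.smul_mul, ← hD.2.1 g h H, ← hD.2.1 g h H, H.2.2, H.2.2, g0, ← e1, ← e2]

end field

theorem ptype (K : Type*) [Field K] [IsAlgClosed K] [CharZero K] (hF : FRAME_S K)
    (hD : DER_S K) : PTYPE_S K := by
  intro l m e f₁ f₂ h12 he1 he2 he12 qe q1 q2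
  obtain ⟨a, ha⟩ := IsAlgClosed.exists_pow_nat_eq (qq e) (n := 2) two_pos
  obtain ⟨b, hb⟩ := IsAlgClosed.exists_pow_nat_eq (qq f₁) (n := 2) two_pos
  obtain ⟨c, hc⟩ := IsAlgClosed.exists_pow_nat_eq (qq f₂) (n := 2) two_pos
  have a0 : a ≠ 0 := by rintro rfl; exact qe (by rw [← ha]; ring)
  have b0 : b ≠ 0 := by rintro rfl; exact q1 (by rw [← hb]; ring)
  have c0 : c ≠ 0 := by rintro rfl; exact q2 (by rw [← hc]; ring)
  have key := ptype_one hF hD l m (a⁻¹ • e) (b⁻¹ • f₁) (c⁻¹ • f₂)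
    (by rw [bb_smul_smul, h12, mul_zero]) (by rw [bb_smul_smul, he1, mul_zero])
    (by rw [bb_smul_smul, he2, mul_zero])
    (by rw [br_smul_left, br_smul_right, smul_smul, bb_smul_smul, he12, mul_zero])
    (by rw [qq_smul, ← ha]; field_simp) (by rw [qq_smul, ← hb]; field_simp)
    (by rw [qq_smul, ← hc]; field_simp)
  obtain ⟨g, h, H, hP⟩ := key
  refine ⟨-24 * (a * b ^ 2 * c ^ 2), by simp [a0, b0, c0], g, h, H, ?_⟩
  have hs := P0_smul l m a b c (a⁻¹ • e) (b⁻¹ • f₁) (c⁻¹ • f₂)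
  rw [smul_smul, smul_smul, smul_smul, mul_inv_cancel₀ a0, mul_inv_cancel₀ b0,
    mul_inv_cancel₀ c0, one_smul, one_smul, one_smul] at hs
  rw [P0, hs]
  rw [P0] at hP
  have e : (-24 * (a * b ^ 2 * c ^ 2) : K) • TT l m =
      (a * b ^ 2 * c ^ 2) • ((-24 : K) • TT l m) := by
    rw [smul_smul, mul_comm]
  rw [hP, e, Matrix.mul_smul g (a * b ^ 2 * c ^ 2), Matrix.smul_mul]

end Pool.Agent.Lib.MP_d55432_al.G2.H72
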